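import Pool.Agent.Lib.MP_f8fbfa.Fusion

set_option autoImplicit false

namespace Pool.Agent.Lib.MP_f8fbfa

open Cardinal Set

/-- The limit is unique. -/
lemma Lim.unique {f : Dsub → Dsub → Y} {x y w w' : Y} (h : Lim f x y w) (h' : Lim f x y w') :
    w = w' := by
  apply fl_injective
  intro n
  obtain ⟨k, hk⟩ := h n
  obtain ⟨k', hk'⟩ := h' n
  rw [← hk (trunc (max k k') x) (trunc (max k k') y) (trunc_fl (le_max_left _ _) x)
    (trunc_fl (le_max_left _ _) y)]
  rw [← hk' (trunc (max k k') x) (trunc (max k k') y) (trunc_fl (le_max_right _ _) x)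
    (trunc_fl (le_max_right _ _) y)]

/-- The extension of a subspace by two vectors. -/
def ext (S : Submodule ℚ Y) (p : Y × Y) : Submodule ℚ Y := S ⊔ Submodule.span ℚ {p.1, p.2}

lemma mem_ext {S : Submodule ℚ Y} {p : Y × Y} {w : Y} :
    w ∈ ext S p ↔ ∃ s ∈ S, ∃ a b : ℚ, s + (a • p.1 + b • p.2) = w := by
  rw [ext, Submodule.mem_sup]
  constructor
  · rintro ⟨s, hs, z, hz, h⟩
    obtain ⟨a, b, hab⟩ := Submodule.mem_span_pair.mp hz
    exact ⟨s, hs, a, b, by rw [hab, h]⟩
  · rintro ⟨s, hs, a, b, h⟩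
    exact ⟨s, hs, _, Submodule.mem_span_pair.mpr ⟨a, b, rfl⟩, h⟩

lemma exists_good {f : Dsub → Dsub → Y} (hf : ContD f) (hna : ¬ AffineD f)
    (S : Submodule ℚ Y) (hS : Cardinal.mk S < 𝔠) (E : Set Y) (hE : Cardinal.mk E < 𝔠)
    (hSE : ∀ w ∈ E, w ∉ S) :
    ∃ p : Y × Y, (∀ w, Lim f p.1 p.2 w → w ∉ ext S p) ∧ ∀ w ∈ E, w ∉ ext S p := by
  by_contra hcon
  push Not at hcon
  obtain ⟨u, v, h1, h2⟩ := perfect_pairs hf hna
  let Tag := (ℚ × ℚ × S) ⊕ (ℚ × ℚ × S × E)
  have htag : ∀ z, ∃ t : Tag, (∀ a b s, t = Sum.inl (a, b, s) →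
      ∃ w, Lim f (u z) (v z) w ∧ (s : Y) + (a • u z + b • v z) = w) ∧
      (∀ a b s w, t = Sum.inr (a, b, s, w) → (s : Y) + (a • u z + b • v z) = (w : Y)) := by
    intro z
    by_cases hz : ∀ w, Lim f (u z) (v z) w → w ∉ ext S (u z, v z)
    · obtain ⟨w, hw, hw'⟩ := hcon (u z, v z) hz
      obtain ⟨s, hs, a, b, hab⟩ := mem_ext.mp hw'
      refine ⟨Sum.inr (a, b, ⟨s, hs⟩, ⟨w, hw⟩), ?_, ?_⟩
      · intro a' b' s' h
        exact absurd h (by simp)
      · intro a' b' s' w' h
        cases h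
        exact hab
    · push Not at hz
      obtain ⟨w, hw, hw'⟩ := hz
      obtain ⟨s, hs, a, b, hab⟩ := mem_ext.mp hw'
      refine ⟨Sum.inl (a, b, ⟨s, hs⟩), ?_, ?_⟩
      · intro a' b' s' h
        cases h
        exact ⟨w, hw, hab⟩
      · intro a' b' s' w' h
        exact absurd h (by simp)
  choose t ht1 ht2 using htag
  have hinj : Function.Injective t := by
    intro z z' hzz
    by_contra hne
    rcases hcase : t z with ⟨a, b, s⟩ | ⟨a, b, s, w⟩
    · obtain ⟨w, hw, e1⟩ := ht1 z a b s hcase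
      obtain ⟨w', hw', e2⟩ := ht1 z' a b s (hzz ▸ hcase)
      apply h1 z z' hne a b w w' hw hw'
      rw [← e1, ← e2]
      abel
    · have e1 := ht2 z a b s w hcase
      have e2 := ht2 z' a b s w (hzz ▸ hcase)
      have hab : a ≠ 0 ∨ b ≠ 0 := by
        by_contra h
        push Not at h
        rw [h.1, h.2, zero_smul, zero_smul, add_zero, add_zero] at e1
        exact hSE w w.2 (e1 ▸ s.2)
      apply h2 z z' hne a b hab
      have h3 := e1.trans e2.symm
      exact add_left_cancel h3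
  have hcard := Cardinal.mk_le_of_injective hinj
  have hB : Cardinal.mk (ℕ → Bool) = 𝔠 := by simp
  rw [hB] at hcard
  have hQ : Cardinal.mk ℚ < 𝔠 := by
    rw [Cardinal.mk_denumerable]
    exact Cardinal.aleph0_lt_continuum
  have hmul : ∀ {a b : Cardinal.{0}}, a < 𝔠 → b < 𝔠 → a * b < 𝔠 := fun ha hb =>
    Cardinal.mul_lt_of_lt Cardinal.aleph0_le_continuum ha hb
  have hlt : Cardinal.mk Tag < 𝔠 := by
    simp only [Tag, Cardinal.mk_sum, Cardinal.mk_prod, Cardinal.lift_id]
    exact Cardinal.add_lt_of_lt Cardinal.aleph0_le_continuum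
      (hmul hQ (hmul hQ hS)) (hmul hQ (hmul hQ (hmul hS hE)))
  exact absurd hcard (not_le.mpr hlt)

/-- The subspace spanned by the finitely supported sequences and by the pairs indexed by `A`. -/
def Sp {I : Type} (g : I → Y × Y) (A : Set I) : Submodule ℚ Y :=
  Dsub ⊔ Submodule.span ℚ ((fun k => (g k).1) '' A ∪ (fun k => (g k).2) '' A)

lemma Sp_mono {I : Type} (g : I → Y × Y) {A B : Set I} (h : A ⊆ B) : Sp g A ≤ Sp g B :=
  sup_le_sup_left (Submodule.span_mono (union_subset_union (image_mono h) (image_mono h))) _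

lemma Dsub_countable : Countable Dsub := by
  have h1 : Function.Surjective (fun s : ℕ →₀ ℚ => (⟨fun i => s i, by
      refine ⟨s.support.sup id + 1, fun i hi => ?_⟩
      by_contra hne
      have h2 : i ∈ s.support := Finsupp.mem_support_iff.mpr hne
      have h3 : i ≤ s.support.sup id := Finset.le_sup (f := id) h2
      omega⟩ : Dsub)) := by
    rintro ⟨x, n, hn⟩
    refine ⟨Finsupp.onFinset (Finset.range n) x ?_, ?_⟩
    · intro i hi
      by_contra h
      apply hi
      apply hn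
      simpa using h
    · apply Subtype.ext
      funext i
      simp
  exact h1.countable

lemma mk_Sp_lt {I : Type} (g : I → Y × Y) (A : Set I) (hA : Cardinal.mk A < 𝔠) :
    Cardinal.mk (Sp g A) < 𝔠 := by
  set B : Set Y := (Dsub : Set Y) ∪ ((fun k => (g k).1) '' A ∪ (fun k => (g k).2) '' A) with hB
  have hBc : Cardinal.mk B < 𝔠 := by
    have hD : Cardinal.mk (Dsub : Set Y) < 𝔠 := by
      have : Countable (Dsub : Set Y) := Dsub_countable
      exact (Cardinal.mk_le_aleph0).trans_lt Cardinal.aleph0_lt_continuum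
    have h1 : Cardinal.mk ((fun k => (g k).1) '' A) < 𝔠 := Cardinal.mk_image_le.trans_lt hA
    have h2 : Cardinal.mk ((fun k => (g k).2) '' A) < 𝔠 := Cardinal.mk_image_le.trans_lt hA
    refine (Cardinal.mk_union_le _ _).trans_lt ?_
    refine Cardinal.add_lt_of_lt Cardinal.aleph0_le_continuum hD ?_
    refine (Cardinal.mk_union_le _ _).trans_lt ?_
    exact Cardinal.add_lt_of_lt Cardinal.aleph0_le_continuum h1 h2
  have hSp : Sp g A = Submodule.span ℚ B := by
    rw [hB, Submodule.span_union, Submodule.span_eq]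
    rfl
  have hsurj : Function.Surjective (fun c : B →₀ ℚ =>
      (⟨Finsupp.linearCombination ℚ (fun b : B => (b : Y)) c, by
        rw [hSp]
        have := Finsupp.range_linearCombination ℚ (v := fun b : B => (b : Y))
        rw [Subtype.range_coe] at this
        rw [← this]
        exact LinearMap.mem_range_self _ _⟩ : Sp g A)) := by
    rintro ⟨x, hx⟩
    rw [hSp] at hx
    have := Finsupp.range_linearCombination ℚ (v := fun b : B => (b : Y))
    rw [Subtype.range_coe] at this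
    rw [← this] at hx
    obtain ⟨c, hc⟩ := hx
    exact ⟨c, Subtype.ext hc⟩
  have hne : Nonempty B := ⟨⟨0, Or.inl Dsub.zero_mem⟩⟩
  calc Cardinal.mk (Sp g A) ≤ Cardinal.mk (B →₀ ℚ) := Cardinal.mk_le_of_surjective hsurj
    _ = max (Cardinal.mk B) (Cardinal.mk ℚ) := Cardinal.mk_finsupp_of_infinite' _ _
    _ < 𝔠 := by
      rw [max_lt_iff]
      refine ⟨hBc, ?_⟩
      rw [Cardinal.mk_denumerable]
      exact Cardinal.aleph0_lt_continuum

lemma mem_Sp_Iio {I : Type} [LinearOrder I] (g : I → Y × Y) {i j : I} (hj : j < i) {w : Y}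
    (hw : w ∈ Sp g (Iio i)) : ∃ k, j ≤ k ∧ k < i ∧ w ∈ Sp g (Iic k) := by
  have hne : Nonempty (Iio i) := ⟨⟨j, hj⟩⟩
  have hdir : Directed (· ≤ ·) (fun k : Iio i => Sp g (Iic (k : I))) := by
    intro a b
    refine ⟨⟨max a b, max_lt a.2 b.2⟩, ?_, ?_⟩
    · exact Sp_mono g (Iic_subset_Iic.mpr (le_max_left _ _))
    · exact Sp_mono g (Iic_subset_Iic.mpr (le_max_right _ _))
  have hle : Sp g (Iio i) ≤ ⨆ k : Iio i, Sp g (Iic (k : I)) := by
    refine sup_le ?_ ?_
    · exact le_trans le_sup_left (le_iSup (fun k : Iio i => Sp g (Iic (k : I))) ⟨j, hj⟩)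
    · rw [Submodule.span_le]
      rintro x (⟨k, hk, rfl⟩ | ⟨k, hk, rfl⟩)
      · apply le_iSup (fun k : Iio i => Sp g (Iic (k : I))) ⟨k, hk⟩
        exact le_sup_right (a := Dsub) (Submodule.subset_span (Or.inl ⟨k, le_rfl, rfl⟩))
      · apply le_iSup (fun k : Iio i => Sp g (Iic (k : I))) ⟨k, hk⟩
        exact le_sup_right (a := Dsub) (Submodule.subset_span (Or.inr ⟨k, le_rfl, rfl⟩))
  obtain ⟨k, hk⟩ := (Submodule.mem_iSup_of_directed _ hdir).mp (hle hw)
  refine ⟨max j k, le_max_left _ _, max_lt hj k.2, ?_⟩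
  exact Sp_mono g (Iic_subset_Iic.mpr (le_max_right _ _)) hk

lemma Sp_Iic {I : Type} [LinearOrder I] (g : I → Y × Y) (i : I) :
    Sp g (Iic i) = ext (Sp g (Iio i)) (g i) := by
  have h1 : (Iic i : Set I) = insert i (Iio i) := by
    ext k
    simp [le_iff_lt_or_eq, or_comm]
  rw [Sp, Sp, ext, h1, image_insert_eq, image_insert_eq, sup_assoc, ← Submodule.span_union]
  congr 2
  ext x
  simp only [mem_union, mem_insert_iff, mem_singleton_iff]
  tauto

/-- Goodness of a pair at a stage of the recursion. -/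
def Good {I : Type} [LinearOrder I] (f : I → (Dsub → Dsub → Y)) (i : I)
    (g : (j : I) → j < i → Y × Y) (p : Y × Y) : Prop :=
  (∀ w, Lim (f i) p.1 p.2 w → w ∉ ext (Dsub ⊔ Submodule.span ℚ
    {x | ∃ j, ∃ h : j < i, x = (g j h).1 ∨ x = (g j h).2}) p) ∧
  ∀ j, ∀ h : j < i, ∀ w, Lim (f j) (g j h).1 (g j h).2 w → w ∉ ext (Dsub ⊔ Submodule.span ℚ
    {x | ∃ j, ∃ h : j < i, x = (g j h).1 ∨ x = (g j h).2}) p

theorem diag {I : Type} [LinearOrder I] [WellFoundedLT I]
    (hI : ∀ i : I, Cardinal.mk (Iio i) < 𝔠) (f : I → (Dsub → Dsub → Y))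
    (hc : ∀ i, ContD (f i)) (hn : ∀ i, ¬ AffineD (f i)) :
    ∃ g : I → Y × Y, ∀ i j, i ≤ j → ∀ w, Lim (f i) (g i).1 (g i).2 w → w ∉ Sp g (Iic j) := by
  classical
  let step : (i : I) → ((j : I) → j < i → Y × Y) → Y × Y := fun i g =>
    if h : ∃ p, Good f i g p then h.choose else (0, 0)
  let g : I → Y × Y := WellFoundedLT.fix step
  have hg : ∀ i, g i = step i (fun j _ => g j) := fun i => WellFoundedLT.fix_eq step i
  have hset : ∀ i : I, (Dsub ⊔ Submodule.span ℚ
      {x | ∃ j, ∃ _ : j < i, x = (g j).1 ∨ x = (g j).2} : Submodule ℚ Y) = Sp g (Iio i) := by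
    intro i
    rw [Sp]
    congr 2
    ext x
    constructor
    · rintro ⟨j, hj, h | h⟩
      · exact Or.inl ⟨j, hj, h.symm⟩
      · exact Or.inr ⟨j, hj, h.symm⟩
    · rintro (⟨j, hj, h⟩ | ⟨j, hj, h⟩)
      · exact ⟨j, hj, Or.inl h.symm⟩
      · exact ⟨j, hj, Or.inr h.symm⟩
  refine ⟨g, ?_⟩
  intro i j
  induction j using WellFoundedLT.induction generalizing i with
  | ind j ih =>
    -- earlier limits are outside the subspace built before stage `j`
    have hold : ∀ k, k < j → ∀ w, Lim (f k) (g k).1 (g k).2 w → w ∉ Sp g (Iio j) := by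
      intro k hk w hw hmem
      obtain ⟨l, hkl, hlj, hl⟩ := mem_Sp_Iio g hk hmem
      exact ih l hlj k hkl w hw hl
    have hgood : ∃ p, Good f j (fun k _ => g k) p := by
      obtain ⟨p, hp1, hp2⟩ := exists_good (hc j) (hn j) (Sp g (Iio j))
        (mk_Sp_lt g _ (hI j)) {w | ∃ k, k < j ∧ Lim (f k) (g k).1 (g k).2 w}
        (by
          have hinj : Function.Injective
              (fun w : {w | ∃ k, k < j ∧ Lim (f k) (g k).1 (g k).2 w} =>
                (⟨w.2.choose, w.2.choose_spec.1⟩ : Iio j)) := by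
            intro w w' hww
            have h1 := w.2.choose_spec.2
            have h2 := w'.2.choose_spec.2
            have h3 : w.2.choose = w'.2.choose := congrArg Subtype.val hww
            rw [← h3] at h2
            exact Subtype.ext (h1.unique h2)
          exact (Cardinal.mk_le_of_injective hinj).trans_lt (hI j))
        (by
          rintro w ⟨k, hk, hw⟩
          exact hold k hk w hw)
      refine ⟨p, ?_, ?_⟩
      · rw [hset]
        exact hp1
      · intro k hk w hw
        rw [hset]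
        exact hp2 w ⟨k, hk, hw⟩
    have hgj : Good f j (fun k _ => g k) (g j) := by
      have h1 : g j = hgood.choose := by
        rw [hg j]
        exact dif_pos hgood
      rw [h1]
      exact hgood.choose_spec
    intro hij w hw
    rw [Sp_Iic]
    rcases hij.lt_or_eq with h | h
    · have := hgj.2 i h w hw
      rwa [hset] at this
    · subst h
      have := hgj.1 w hw
      rwa [hset] at this

/-- The main existence statement. -/
theorem exists_subspace : ∃ X : Submodule ℚ Y, Dsub ≤ X ∧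
    ∀ f : Dsub → Dsub → Y, ContD f → ¬ AffineD f →
      ∃ x ∈ X, ∃ y ∈ X, ∀ w ∈ X, ¬ Lim f x y w := by
  by_cases hne : Nonempty {f : Dsub → Dsub → Y // ContD f ∧ ¬ AffineD f}
  · let I := (Cardinal.ord 𝔠).ToType
    have hI : ∀ i : I, Cardinal.mk (Iio i) < 𝔠 := by
      intro i
      have h1 := Cardinal.mk_Iio_lt (α := I) i (by simp [I])
      simpa [I] using h1
    have hcard : Cardinal.mk {f : Dsub → Dsub → Y // ContD f ∧ ¬ AffineD f} ≤ Cardinal.mk I := by
      have hI' : Cardinal.mk I = 𝔠 := Cardinal.mk_ord_toType 𝔠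
      rw [hI']
      refine (Cardinal.mk_subtype_le _).trans ?_
      have hD : Cardinal.mk Dsub ≤ ℵ₀ := by
        have := Dsub_countable
        exact Cardinal.mk_le_aleph0
      have hY : Cardinal.mk Y = 𝔠 := by
        change Cardinal.mk (ℕ → ℚ) = 𝔠
        rw [← Cardinal.power_def, Cardinal.mk_denumerable, Cardinal.mk_denumerable,
          Cardinal.aleph0_power_aleph0]
      have h1 : ∀ κ : Type, Cardinal.mk κ ≤ 𝔠 → Cardinal.mk (Dsub → κ) ≤ 𝔠 := by
        intro κ hκ
        rw [← Cardinal.power_def]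
        calc Cardinal.mk κ ^ Cardinal.mk Dsub ≤ 𝔠 ^ Cardinal.mk Dsub :=
              Cardinal.power_le_power_right hκ
          _ ≤ 𝔠 ^ ℵ₀ := Cardinal.power_le_power_left Cardinal.continuum_ne_zero hD
          _ = 𝔠 := Cardinal.continuum_power_aleph0
      exact h1 _ (h1 _ hY.le)
    obtain ⟨em⟩ := Cardinal.le_def _ _ |>.mp hcard
    obtain ⟨F, hF⟩ : ∃ F : I → {f : Dsub → Dsub → Y // ContD f ∧ ¬ AffineD f},
        Function.Surjective F := ⟨Function.invFun em, Function.invFun_surjective em.injective⟩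
    obtain ⟨g, hg⟩ := diag hI (fun i => (F i).1) (fun i => (F i).2.1) (fun i => (F i).2.2)
    refine ⟨Sp g univ, le_sup_left, ?_⟩
    intro f hf hna
    obtain ⟨i, hi⟩ := hF ⟨f, hf, hna⟩
    refine ⟨(g i).1, le_sup_right (a := Dsub) (Submodule.subset_span (Or.inl ⟨i, trivial, rfl⟩)),
      (g i).2, le_sup_right (a := Dsub) (Submodule.subset_span (Or.inr ⟨i, trivial, rfl⟩)), ?_⟩
    intro w hw hlim
    -- `w` lies in some initial part
    have hdir : Directed (· ≤ ·) (fun k : I => Sp g (Iic k)) := by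
      intro a b
      exact ⟨max a b, Sp_mono g (Iic_subset_Iic.mpr (le_max_left _ _)),
        Sp_mono g (Iic_subset_Iic.mpr (le_max_right _ _))⟩
    have hle : Sp g univ ≤ ⨆ k : I, Sp g (Iic k) := by
      refine sup_le ?_ ?_
      · exact le_trans le_sup_left (le_iSup (fun k : I => Sp g (Iic k)) i)
      · rw [Submodule.span_le]
        rintro x (⟨k, hk, rfl⟩ | ⟨k, hk, rfl⟩)
        · apply le_iSup (fun k : I => Sp g (Iic k)) k
          exact le_sup_right (a := Dsub)
            (Submodule.subset_span (Or.inl ⟨k, mem_Iic.mpr le_rfl, rfl⟩))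
        · apply le_iSup (fun k : I => Sp g (Iic k)) k
          exact le_sup_right (a := Dsub)
            (Submodule.subset_span (Or.inr ⟨k, mem_Iic.mpr le_rfl, rfl⟩))
    have : Nonempty I := ⟨i⟩
    obtain ⟨k, hk⟩ := (Submodule.mem_iSup_of_directed _ hdir).mp (hle hw)
    have h1 := hg i (max i k) (le_max_left _ _) w (by
      have h2 : (F i).1 = f := by rw [hi]
      change Lim (F i).1 (g i).1 (g i).2 w
      rw [h2]
      exact hlim)
    exact h1 (Sp_mono g (Iic_subset_Iic.mpr (le_max_right _ _)) hk)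
  · refine ⟨Dsub, le_rfl, fun f hf hna => ?_⟩
    exact absurd ⟨⟨f, hf, hna⟩⟩ hne

end Pool.Agent.Lib.MP_f8fbfa
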