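import Mathlib

set_option autoImplicit false

namespace Pool.Agent.Lib.MP_f8fbfa

open Topology

/-- Sequences of rationals. -/
abbrev Y := ℕ → ℚ

/-- `fl n x` records the integers `⌊n! * x i⌋` for `i < n`. -/
def fl (n : ℕ) (x : Y) : Fin n → ℤ := fun i => ⌊(n.factorial : ℚ) * x i⌋

lemma fac_pos (n : ℕ) : (0 : ℚ) < (n.factorial : ℚ) := by
  exact_mod_cast n.factorial_pos

lemma fac_ne (n : ℕ) : (n.factorial : ℚ) ≠ 0 := (fac_pos n).ne'

/-- If the floors agree at level `n`, they agree at each lower level. -/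
lemma floor_mono {m n : ℕ} (hmn : m ≤ n) {a b : ℚ}
    (h : ⌊(n.factorial : ℚ) * a⌋ = ⌊(n.factorial : ℚ) * b⌋) :
    ⌊(m.factorial : ℚ) * a⌋ = ⌊(m.factorial : ℚ) * b⌋ := by
  obtain ⟨k, hk⟩ := Nat.factorial_dvd_factorial hmn
  have hk0 : (k : ℚ) ≠ 0 := by
    intro h0
    have : k = 0 := by exact_mod_cast h0
    rw [this, mul_zero] at hk
    exact n.factorial_ne_zero hk
  have key : ∀ c : ℚ, ⌊(m.factorial : ℚ) * c⌋ = ⌊(n.factorial : ℚ) * c⌋ / (k : ℤ) := by
    intro c
    have h1 : (m.factorial : ℚ) * c = ((n.factorial : ℚ) * c) / (k : ℚ) := by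
      rw [hk]
      push_cast
      field_simp
    rw [h1]
    exact Int.floor_div_natCast _ _
  rw [key a, key b, h]

/-- The integrality predicate. -/
def IntAt (n : ℕ) (a : ℚ) : Prop := ∃ K : ℤ, (n.factorial : ℚ) * a = K

lemma IntAt.mono {m n : ℕ} (hmn : m ≤ n) {a : ℚ} (h : IntAt m a) : IntAt n a := by
  obtain ⟨k, hk⟩ := Nat.factorial_dvd_factorial hmn
  obtain ⟨K, hK⟩ := h
  refine ⟨k * K, ?_⟩
  rw [hk]
  push_cast
  rw [← hK]
  ring

lemma exists_intAt (a : ℚ) : ∃ n, IntAt n a := by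
  refine ⟨a.den, ?_⟩
  obtain ⟨k, hk⟩ := Nat.dvd_factorial a.den_pos le_rfl
  refine ⟨k * a.num, ?_⟩
  rw [hk]
  have h1 : (a.den : ℚ) * a = a.num := Rat.den_mul_eq_num a
  push_cast
  rw [← h1]
  ring

lemma floor_of_intAt {n : ℕ} {a : ℚ} (h : IntAt n a) :
    ((⌊(n.factorial : ℚ) * a⌋ : ℤ) : ℚ) = (n.factorial : ℚ) * a := by
  obtain ⟨K, hK⟩ := h
  rw [hK, Int.floor_intCast]

/-- If `n! * a` is an integer, then `b` has the same floor at level `n` iff
`a ≤ b < a + 1 / n!`. -/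
lemma floor_eq_iff_of_intAt {n : ℕ} {a b : ℚ} (h : IntAt n a) :
    ⌊(n.factorial : ℚ) * b⌋ = ⌊(n.factorial : ℚ) * a⌋ ↔
      a ≤ b ∧ b < a + 1 / (n.factorial : ℚ) := by
  have hp := fac_pos n
  rw [Int.floor_eq_iff, floor_of_intAt h]
  constructor
  · rintro ⟨h1, h2⟩
    refine ⟨le_of_mul_le_mul_left h1 hp, ?_⟩
    have h3 : (n.factorial : ℚ) * b < (n.factorial : ℚ) * (a + 1 / (n.factorial : ℚ)) := by
      rw [mul_add, mul_one_div_cancel hp.ne']
      exact h2
    exact lt_of_mul_lt_mul_left h3 hp.le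
  · rintro ⟨h1, h2⟩
    refine ⟨mul_le_mul_of_nonneg_left h1 hp.le, ?_⟩
    have h3 := mul_lt_mul_of_pos_left h2 hp
    rwa [mul_add, mul_one_div_cancel hp.ne'] at h3

lemma fl_mono {m n : ℕ} (hmn : m ≤ n) {x y : Y} (h : fl n x = fl n y) : fl m x = fl m y := by
  funext i
  have h1 := congrFun h ⟨i.1, lt_of_lt_of_le i.2 hmn⟩
  exact floor_mono hmn h1

lemma fl_congr {n : ℕ} {x y : Y} (h : ∀ i < n, x i = y i) : fl n x = fl n y := by
  funext i
  simp only [fl]
  rw [h i i.2]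

lemma exists_intAt_ge (a : ℚ) (m : ℕ) : ∃ n, m ≤ n ∧ IntAt n a := by
  obtain ⟨n, hn⟩ := exists_intAt a
  exact ⟨max m n, le_max_left _ _, hn.mono (le_max_right _ _)⟩

/-- A common level for finitely many coordinates. -/
lemma exists_intAt_all (x : Y) (k m : ℕ) : ∃ n, m ≤ n ∧ ∀ i < k, IntAt n (x i) := by
  induction k with
  | zero => exact ⟨m, le_rfl, fun i hi => absurd hi (Nat.not_lt_zero i)⟩
  | succ k ih =>
    obtain ⟨n, hn, hn'⟩ := ih
    obtain ⟨n', hn1, hn2⟩ := exists_intAt_ge (x k) n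
    refine ⟨n', hn.trans hn1, fun i hi => ?_⟩
    rcases Nat.lt_succ_iff_lt_or_eq.mp hi with h | h
    · exact (hn' i h).mono hn1
    · rw [h]; exact hn2

lemma fl_injective {x y : Y} (h : ∀ n, fl n x = fl n y) : x = y := by
  funext i
  obtain ⟨n, hn, hn'⟩ := exists_intAt_ge (x i) (i + 1)
  obtain ⟨m, hm, hm'⟩ := exists_intAt_ge (y i) n
  have h1 := congrFun (h m) ⟨i, lt_of_lt_of_le (Nat.lt_succ_self i) (hn.trans hm)⟩
  have h2 : ⌊(m.factorial : ℚ) * x i⌋ = ⌊(m.factorial : ℚ) * y i⌋ := h1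
  have h3 := floor_of_intAt (hn'.mono hm)
  have h4 := floor_of_intAt hm'
  rw [h2, h4] at h3
  exact (mul_left_cancel₀ (fac_ne m) h3).symm

/-- The key estimate behind continuity of addition. -/
lemma add_estimate (x y : Y) (n : ℕ) : ∃ m, ∀ x' y' : Y, fl m x' = fl m x → fl m y' = fl m y →
    fl n (x' + y') = fl n (x + y) := by
  obtain ⟨m₁, hm₁, hx⟩ := exists_intAt_all x n (n + 1)
  obtain ⟨m, hm, hy⟩ := exists_intAt_all y n m₁
  refine ⟨m + 1, fun x' y' h1 h2 => ?_⟩
  funext i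
  have hin : (i : ℕ) < n := i.2
  have him : (i : ℕ) < m + 1 := by omega
  have hxi : IntAt m (x i) := (hx i hin).mono hm
  have hyi : IntAt m (y i) := hy i hin
  have e1 : ⌊((m + 1).factorial : ℚ) * x' i⌋ = ⌊((m + 1).factorial : ℚ) * x i⌋ :=
    congrFun h1 ⟨i, him⟩
  have e2 : ⌊((m + 1).factorial : ℚ) * y' i⌋ = ⌊((m + 1).factorial : ℚ) * y i⌋ :=
    congrFun h2 ⟨i, him⟩
  rw [floor_eq_iff_of_intAt (hxi.mono (Nat.le_succ m))] at e1
  rw [floor_eq_iff_of_intAt (hyi.mono (Nat.le_succ m))] at e2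
  have hs : IntAt m (x i + y i) := by
    obtain ⟨K, hK⟩ := hxi
    obtain ⟨L, hL⟩ := hyi
    refine ⟨K + L, ?_⟩
    rw [mul_add, hK, hL]
    push_cast
    ring
  have hbound : 1 / ((m + 1).factorial : ℚ) + 1 / ((m + 1).factorial : ℚ) ≤
      1 / (m.factorial : ℚ) := by
    rw [Nat.factorial_succ]
    push_cast
    have hm1 : (2 : ℚ) ≤ (m : ℚ) + 1 := by
      have : 1 ≤ m := by omega
      have : (1 : ℚ) ≤ m := by exact_mod_cast this
      linarith
    have hp := fac_pos m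
    rw [← add_div, div_le_div_iff₀ (by positivity) hp]
    nlinarith
  apply floor_mono (m := n) (n := m) (by omega)
  change ⌊(m.factorial : ℚ) * (x' i + y' i)⌋ = ⌊(m.factorial : ℚ) * (x i + y i)⌋
  rw [floor_eq_iff_of_intAt hs]
  constructor <;> linarith [e1.1, e1.2, e2.1, e2.2]

/-! ### The topology -/

/-- A copy of a linear subspace of `ℕ → ℚ`. -/
def SX (X : Submodule ℚ Y) : Type := X

variable (X : Submodule ℚ Y)

noncomputable instance : AddCommGroup (SX X) := inferInstanceAs (AddCommGroup X)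

/-- The underlying sequence. -/
def SX.val {X : Submodule ℚ Y} (x : SX X) : Y := (show X from x).1

/-- Build an element. -/
def SX.mk {X : Submodule ℚ Y} (x : Y) (hx : x ∈ X) : SX X := (⟨x, hx⟩ : X)

@[simp] lemma SX.val_mk {X : Submodule ℚ Y} (x : Y) (hx : x ∈ X) : (SX.mk x hx).val = x := rfl

lemma SX.val_mem {X : Submodule ℚ Y} (x : SX X) : x.val ∈ X := (show X from x).2

@[simp] lemma SX.val_add {X : Submodule ℚ Y} (x y : SX X) : (x + y).val = x.val + y.val := rfl

@[simp] lemma SX.val_sub {X : Submodule ℚ Y} (x y : SX X) : (x - y).val = x.val - y.val := rfl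

@[simp] lemma SX.val_neg {X : Submodule ℚ Y} (x : SX X) : (-x).val = -x.val := rfl

@[simp] lemma SX.val_zero {X : Submodule ℚ Y} : (0 : SX X).val = 0 := rfl

lemma SX.ext {X : Submodule ℚ Y} {x y : SX X} (h : x.val = y.val) : x = y :=
  Subtype.ext (p := fun z => z ∈ X) h

/-- The embedding into a countable product of countable discrete spaces. -/
def flmap {X : Submodule ℚ Y} (x : SX X) : (n : ℕ) → Fin n → ℤ := fun n => fl n x.val

instance : TopologicalSpace (SX X) := TopologicalSpace.induced flmap inferInstance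

lemma isEmbedding_flmap : IsEmbedding (flmap (X := X)) := by
  refine ⟨⟨rfl⟩, ?_⟩
  intro x y h
  apply SX.ext
  apply fl_injective
  intro n
  exact congrFun h n

instance : SecondCountableTopology (SX X) := (isEmbedding_flmap X).secondCountableTopology

instance : TopologicalSpace.MetrizableSpace (SX X) := (isEmbedding_flmap X).metrizableSpace

instance : T3Space (SX X) := inferInstance

variable {X}

lemma nhds_hasBasis (x : SX X) :
    (𝓝 x).HasBasis (fun _ : ℕ => True) (fun n => {y | fl n y.val = fl n x.val}) := by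
  have h1 : 𝓝 x = ⨅ n : ℕ, Filter.principal {y : SX X | fl n y.val = fl n x.val} := by
    rw [nhds_induced, nhds_pi, Filter.pi, Filter.comap_iInf]
    congr 1
    funext n
    rw [nhds_discrete, Filter.comap_comap, Filter.comap_pure]
    rfl
  rw [h1]
  apply Filter.hasBasis_iInf_principal
  intro m n
  refine ⟨max m n, ?_, ?_⟩
  · intro y hy
    exact fl_mono (le_max_left m n) hy
  · intro y hy
    exact fl_mono (le_max_right m n) hy

lemma mem_nhds_fl (x : SX X) (n : ℕ) : {y : SX X | fl n y.val = fl n x.val} ∈ 𝓝 x :=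
  (nhds_hasBasis x).mem_of_mem (i := n) trivial

lemma tendsto_iff_fl {α : Type*} {l : Filter α} {g : α → SX X} {x : SX X} :
    Filter.Tendsto g l (𝓝 x) ↔ ∀ n, ∀ᶠ a in l, fl n (g a).val = fl n x.val := by
  rw [(nhds_hasBasis x).tendsto_right_iff]
  simp

instance : ContinuousAdd (SX X) := by
  constructor
  rw [continuous_iff_continuousAt]
  rintro ⟨x, y⟩
  rw [ContinuousAt, tendsto_iff_fl]
  intro n
  obtain ⟨m, hm⟩ := add_estimate x.val y.val n
  rw [nhds_prod_eq]
  filter_upwards [Filter.prod_mem_prod (mem_nhds_fl x m) (mem_nhds_fl y m)] with p hp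
  exact hm _ _ hp.1 hp.2

end Pool.Agent.Lib.MP_f8fbfa
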