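import Pool.Agent.Lib.MP_f8fbfa.Rect

set_option autoImplicit false

namespace Pool.Agent.Lib.MP_f8fbfa

section Abstract

variable {T : Type*} (le : T → T → Prop) (R : ℕ → T → T → Prop) (Q : ℕ → T → Prop)

lemma refine_pairs (hrefl : ∀ t, le t t) (htrans : ∀ a b c, le a b → le b c → le a c)
    (hR : ∀ n s t s' t', le s' s → le t' t → R n s t → R n s' t')
    (hd : ∀ n s t, ∃ s' t', le s' s ∧ le t' t ∧ R n s' t')
    {ι : Type*} [DecidableEq ι] (s : ι → T) (P : Finset (ℕ × ι × ι)) :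
    ∃ s' : ι → T, (∀ i, le (s' i) (s i)) ∧
      ∀ q ∈ P, q.2.1 ≠ q.2.2 → R q.1 (s' q.2.1) (s' q.2.2) := by
  induction P using Finset.induction_on with
  | empty => exact ⟨s, fun i => hrefl _, fun q hq => absurd hq (Finset.notMem_empty q)⟩
  | insert q P _ ih =>
    obtain ⟨s₁, h1, h2⟩ := ih
    obtain ⟨n, i, j⟩ := q
    by_cases hij : i = j
    · refine ⟨s₁, h1, ?_⟩
      intro q hq hne
      rcases Finset.mem_insert.mp hq with h | h
      · subst h
        exact absurd hij hne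
      · exact h2 q h hne
    · obtain ⟨t₁, t₂, ht₁, ht₂, ht⟩ := hd n (s₁ i) (s₁ j)
      have hle : ∀ k, le (Function.update (Function.update s₁ i t₁) j t₂ k) (s₁ k) := by
        intro k
        by_cases hkj : k = j
        · subst hkj
          rw [Function.update_self]
          exact ht₂
        · rw [Function.update_of_ne hkj]
          by_cases hki : k = i
          · subst hki
            rw [Function.update_self]
            exact ht₁
          · rw [Function.update_of_ne hki]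
            exact hrefl _
      refine ⟨Function.update (Function.update s₁ i t₁) j t₂,
        fun k => htrans _ _ _ (hle k) (h1 k), ?_⟩
      intro q hq hne
      rcases Finset.mem_insert.mp hq with h | h
      · subst h
        simp only
        rw [Function.update_self, Function.update_of_ne hij, Function.update_self]
        exact ht
      · exact hR _ _ _ _ _ (hle _) (hle _) (h2 q h hne)

lemma refine_all (hrefl : ∀ t, le t t) (htrans : ∀ a b c, le a b → le b c → le a c)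
    (hR : ∀ n s t s' t', le s' s → le t' t → R n s t → R n s' t')
    (hd : ∀ n s t, ∃ s' t', le s' s ∧ le t' t ∧ R n s' t')
    (hQ : ∀ k t, ∃ t', le t' t ∧ Q k t') (hQm : ∀ k t t', le t' t → Q k t → Q k t')
    {ι : Type*} [Fintype ι] (s : ι → T) (k : ℕ) :
    ∃ s' : ι → T, (∀ i, le (s' i) (s i)) ∧ (∀ i, Q k (s' i)) ∧
      ∀ n ≤ k, ∀ i j, i ≠ j → R n (s' i) (s' j) := by
  classical
  choose s₁ h1 h1' using fun i => hQ k (s i)
  obtain ⟨s₂, h2, h3⟩ := refine_pairs le R hrefl htrans hR hd s₁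
    ((Finset.range (k + 1)) ×ˢ (Finset.univ ×ˢ Finset.univ))
  refine ⟨s₂, fun i => htrans _ _ _ (h2 i) (h1 i), fun i => hQm _ _ _ (h2 i) (h1' i), ?_⟩
  intro n hn i j hij
  exact h3 (n, i, j) (by simp; omega) hij

theorem fusion (hrefl : ∀ t, le t t) (htrans : ∀ a b c, le a b → le b c → le a c)
    (hR : ∀ n s t s' t', le s' s → le t' t → R n s t → R n s' t')
    (hd : ∀ n s t, ∃ s' t', le s' s ∧ le t' t ∧ R n s' t')
    (hQ : ∀ k t, ∃ t', le t' t ∧ Q k t') (hQm : ∀ k t t', le t' t → Q k t → Q k t')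
    (t₀ : T) :
    ∃ F : (ℕ → Bool) → ℕ → T, (∀ z k, le (F z (k + 1)) (F z k)) ∧
      (∀ z k, Q k (F z (k + 1))) ∧
      ∀ z z', z ≠ z' → ∀ n, ∃ k, R n (F z k) (F z' k) := by
  have step : ∀ (k : ℕ) (s : (Fin k → Bool) → T), ∃ s' : (Fin (k + 1) → Bool) → T,
      (∀ σ, le (s' σ) (s (fun i => σ i.castSucc))) ∧ (∀ σ, Q k (s' σ)) ∧
      ∀ n ≤ k, ∀ σ τ, σ ≠ τ → R n (s' σ) (s' τ) := by
    intro k s
    exact refine_all le R Q hrefl htrans hR hd hQ hQm
      (fun σ : Fin (k + 1) → Bool => s (fun i => σ i.castSucc)) k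
  choose st hst1 hst2 hst3 using step
  let S : (k : ℕ) → (Fin k → Bool) → T := fun k =>
    Nat.rec (motive := fun k => (Fin k → Bool) → T) (fun _ => t₀) (fun k s => st k s) k
  have hS : ∀ k, S (k + 1) = st k (S k) := fun k => rfl
  refine ⟨fun z k => S k (fun i => z i), ?_, ?_, ?_⟩
  · intro z k
    exact hst1 k (S k) (fun i => z i)
  · intro z k
    exact hst2 k (S k) (fun i => z i)
  · intro z z' hne n
    have h1 : ∃ m, z m ≠ z' m := by
      by_contra h
      push Not at h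
      exact hne (funext h)
    obtain ⟨m, hm⟩ := h1
    refine ⟨max n m + 1, ?_⟩
    simp only
    rw [hS]
    apply hst3 (max n m) (S (max n m)) n (le_max_left _ _)
    intro h2
    have h3 := congrFun h2 ⟨m, by omega⟩
    exact hm h3

end Abstract

/-! ### Limits of functions defined on finitely supported sequences -/

/-- `w` is the limit at `(x, y)` of the function `f`. -/
def Lim (f : Dsub → Dsub → Y) (x y w : Y) : Prop :=
  ∀ n, ∃ k, ∀ d d' : Dsub, fl k d.1 = fl k x → fl k d'.1 = fl k y → fl n (f d d') = fl n w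

/-- Continuity of `f` on finitely supported sequences. -/
def ContD (f : Dsub → Dsub → Y) : Prop := ∀ d d' : Dsub, Lim f d.1 d'.1 (f d d')

/-- `f` is affine on some box. -/
def AffineD (f : Dsub → Dsub → Y) : Prop :=
  ∃ (n : ℕ) (a b : Dsub) (p q : ℚ) (c : Y), ∀ d d' : Dsub,
    (∀ i < n, d.1 i = a.1 i) → (∀ i < n, d'.1 i = b.1 i) → f d d' = p • d.1 + q • d'.1 + c

/-- Conditions: a pair of finitely supported sequences and the number of coordinates that are
already decided. -/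
structure Cd where
  n : ℕ
  a : Dsub
  b : Dsub

def Cd.le (t' t : Cd) : Prop := t.n ≤ t'.n ∧ ∀ i < t.n, t'.a.1 i = t.a.1 i ∧ t'.b.1 i = t.b.1 i

def Cd.Box (t : Cd) (x y : Y) : Prop := ∀ i < t.n, x i = t.a.1 i ∧ y i = t.b.1 i

lemma Cd.le_refl (t : Cd) : Cd.le t t := ⟨_root_.le_refl _, fun _ _ => ⟨rfl, rfl⟩⟩

lemma Cd.le_trans (t₁ t₂ t₃ : Cd) (h : Cd.le t₁ t₂) (h' : Cd.le t₂ t₃) : Cd.le t₁ t₃ := by
  refine ⟨h'.1.trans h.1, fun i hi => ?_⟩
  have h1 := h'.2 i hi
  have h2 := h.2 i (lt_of_lt_of_le hi h'.1)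
  exact ⟨h2.1.trans h1.1, h2.2.trans h1.2⟩

lemma Cd.Box.mono {t t' : Cd} (h : Cd.le t' t) {x y : Y} (hb : t'.Box x y) : t.Box x y := by
  intro i hi
  have h1 := hb i (lt_of_lt_of_le hi h.1)
  have h2 := h.2 i hi
  exact ⟨h1.1.trans h2.1, h1.2.trans h2.2⟩

/-- The truncation of a sequence. -/
def trunc (k : ℕ) (x : Y) : Dsub := ⟨fun i => if i < k then x i else 0,
  ⟨k, fun i hi => by simp [not_lt.mpr hi]⟩⟩

lemma trunc_apply {k i : ℕ} (h : i < k) (x : Y) : (trunc k x).1 i = x i := by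
  simp [trunc, h]

lemma trunc_fl {k n : ℕ} (h : n ≤ k) (x : Y) : fl n (trunc k x).1 = fl n x :=
  fl_congr fun _ hi => trunc_apply (lt_of_lt_of_le hi h) x

/-- First separation relation. -/
def RA (f : Dsub → Dsub → Y) (p q : ℚ) (t t' : Cd) : Prop :=
  ∀ x y w x' y' w', t.Box x y → t'.Box x' y' → Lim f x y w → Lim f x' y' w' →
    w - p • x - q • y ≠ w' - p • x' - q • y'

/-- Second separation relation. -/
def RB (p q : ℚ) (t t' : Cd) : Prop :=
  (p ≠ 0 ∨ q ≠ 0) → ∀ x y x' y', t.Box x y → t'.Box x' y' → p • x + q • y ≠ p • x' + q • y'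

lemma RA_mono (f : Dsub → Dsub → Y) (p q : ℚ) {s t s' t' : Cd} (hs : Cd.le s' s)
    (ht : Cd.le t' t) (h : RA f p q s t) : RA f p q s' t' :=
  fun _ _ _ _ _ _ h1 h2 h3 h4 => h _ _ _ _ _ _ (h1.mono hs) (h2.mono ht) h3 h4

lemma RB_mono (p q : ℚ) {s t s' t' : Cd} (hs : Cd.le s' s)
    (ht : Cd.le t' t) (h : RB p q s t) : RB p q s' t' :=
  fun hpq _ _ _ _ h1 h2 => h hpq _ _ _ _ (h1.mono hs) (h2.mono ht)

lemma RB_dense (p q : ℚ) (s t : Cd) : ∃ s' t', Cd.le s' s ∧ Cd.le t' t ∧ RB p q s' t' := by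
  by_cases hpq : p ≠ 0 ∨ q ≠ 0
  · set j := max s.n t.n with hj
    -- change the value of `s` at the coordinate `j`
    have key : ∃ u v : ℚ, p * u + q * v ≠ p * t.a.1 j + q * t.b.1 j := by
      rcases hpq with hp | hq
      · refine ⟨t.a.1 j + 1, t.b.1 j, ?_⟩
        intro h
        apply hp
        linarith
      · refine ⟨t.a.1 j, t.b.1 j + 1, ?_⟩
        intro h
        apply hq
        linarith
    obtain ⟨u, v, huv⟩ := key
    refine ⟨⟨j + 1, trunc (j + 1) (Function.update s.a.1 j u),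
      trunc (j + 1) (Function.update s.b.1 j v)⟩, ⟨j + 1, t.a, t.b⟩, ?_, ?_, ?_⟩
    · refine ⟨by simp only; omega, fun i hi => ?_⟩
      have hij : i < j + 1 := by omega
      have hne : i ≠ j := by omega
      simp only
      rw [trunc_apply hij, trunc_apply hij, Function.update_of_ne hne, Function.update_of_ne hne]
      exact ⟨rfl, rfl⟩
    · exact ⟨by simp only; omega, fun i hi => ⟨rfl, rfl⟩⟩
    · intro _ x y x' y' h1 h2 h3
      have h4 := h1 j (Nat.lt_succ_self j)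
      have h5 := h2 j (Nat.lt_succ_self j)
      simp only at h4 h5
      rw [trunc_apply (Nat.lt_succ_self j), trunc_apply (Nat.lt_succ_self j),
        Function.update_self, Function.update_self] at h4
      have h6 := congrFun h3 j
      simp only [Pi.add_apply, Pi.smul_apply, smul_eq_mul, h4.1, h4.2, h5.1, h5.2] at h6
      exact huv h6
  · exact ⟨s, t, s.le_refl, t.le_refl, fun h => absurd h hpq⟩

/-- Values of limits inside a small box around a point of continuity. -/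
lemma lim_near {f : Dsub → Dsub → Y} (hf : ContD f) (d d' : Dsub) (N : ℕ) :
    ∃ k, ∀ x y w, (∀ i < k, x i = d.1 i) → (∀ i < k, y i = d'.1 i) → Lim f x y w →
      fl N w = fl N (f d d') := by
  obtain ⟨k, hk⟩ := hf d d' N
  refine ⟨k, fun x y w hx hy hw => ?_⟩
  obtain ⟨k₂, hk₂⟩ := hw N
  have h1 := hk₂ (trunc (max k k₂) x) (trunc (max k k₂) y)
    (trunc_fl (le_max_right _ _) x) (trunc_fl (le_max_right _ _) y)
  have h2 := hk (trunc (max k k₂) x) (trunc (max k k₂) y)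
    ((trunc_fl (le_max_left _ _) x).trans (fl_congr hx))
    ((trunc_fl (le_max_left _ _) y).trans (fl_congr hy))
  exact h1.symm.trans h2

lemma RA_dense {f : Dsub → Dsub → Y} (hf : ContD f) (hna : ¬ AffineD f) (p q : ℚ) (s t : Cd) :
    ∃ s' t', Cd.le s' s ∧ Cd.le t' t ∧ RA f p q s' t' := by
  -- find points of the boxes with different values of `f - p - q`
  have hex : ∃ d d' : Dsub, s.Box d.1 d'.1 ∧
      f d d' - p • d.1 - q • d'.1 ≠ f t.a t.b - p • t.a.1 - q • t.b.1 := by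
    by_contra hcon
    push Not at hcon
    apply hna
    refine ⟨s.n, s.a, s.b, p, q, f t.a t.b - p • t.a.1 - q • t.b.1, ?_⟩
    intro d d' h1 h2
    have h3 := hcon d d' (fun i hi => ⟨h1 i hi, h2 i hi⟩)
    rw [← h3]
    abel
  obtain ⟨d, d', hbox, hne⟩ := hex
  obtain ⟨i, hi⟩ : ∃ i, (f d d' - p • d.1 - q • d'.1) i ≠
      (f t.a t.b - p • t.a.1 - q • t.b.1) i := by
    by_contra h
    push Not at h
    exact hne (funext h)
  set e := t.a with he
  set e' := t.b with he'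
  have hpos : 0 < |(f d d' - p • d.1 - q • d'.1) i - (f e e' - p • e.1 - q • e'.1) i| :=
    abs_pos.mpr (sub_ne_zero.mpr hi)
  -- choose the level
  obtain ⟨N₀, hN₀⟩ : ∃ N₀ : ℕ, 1 / ((N₀ : ℚ) + 1) <
      |(f d d' - p • d.1 - q • d'.1) i - (f e e' - p • e.1 - q • e'.1) i| :=
    exists_nat_one_div_lt hpos
  obtain ⟨N₁, hN₁, hint₁⟩ := exists_intAt_ge (f d d' i) (max (N₀ + 1) (i + 1))
  obtain ⟨N, hN, hint₂⟩ := exists_intAt_ge (f e e' i) N₁
  have hint₁' := hint₁.mono hN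
  have hiN : i < N := by omega
  have hfac : 1 / (N.factorial : ℚ) ≤ 1 / ((N₀ : ℚ) + 1) := by
    apply one_div_le_one_div_of_le (by positivity)
    have h1 : N₀ + 1 ≤ N.factorial := le_trans (by omega) (Nat.self_le_factorial N)
    exact_mod_cast h1
  obtain ⟨k₁, hk₁⟩ := lim_near hf d d' N
  obtain ⟨k₂, hk₂⟩ := lim_near hf e e' N
  refine ⟨⟨max s.n (max k₁ (i + 1)), d, d'⟩, ⟨max t.n (max k₂ (i + 1)), e, e'⟩, ?_, ?_, ?_⟩
  · exact ⟨le_max_left _ _, fun j hj => hbox j hj⟩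
  · exact ⟨le_max_left _ _, fun j hj => ⟨rfl, rfl⟩⟩
  · intro x y w x' y' w' hb hb' hw hw' heq
    have h1 := hk₁ x y w (fun j hj => (hb j (by simp only; omega)).1)
      (fun j hj => (hb j (by simp only; omega)).2) hw
    have h2 := hk₂ x' y' w' (fun j hj => (hb' j (by simp only; omega)).1)
      (fun j hj => (hb' j (by simp only; omega)).2) hw'
    have h1i : ⌊(N.factorial : ℚ) * w i⌋ = ⌊(N.factorial : ℚ) * f d d' i⌋ :=
      congrFun h1 ⟨i, hiN⟩
    have h2i : ⌊(N.factorial : ℚ) * w' i⌋ = ⌊(N.factorial : ℚ) * f e e' i⌋ :=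
      congrFun h2 ⟨i, hiN⟩
    rw [floor_eq_iff_of_intAt hint₁'] at h1i
    rw [floor_eq_iff_of_intAt hint₂] at h2i
    have hxi := hb i (by simp only; omega)
    have hxi' := hb' i (by simp only; omega)
    simp only at hxi hxi'
    have h3 := congrFun heq i
    simp only [Pi.sub_apply, Pi.smul_apply, smul_eq_mul, hxi.1, hxi.2, hxi'.1, hxi'.2] at h3
    simp only [Pi.sub_apply, Pi.smul_apply, smul_eq_mul] at hN₀
    have h4 : |f d d' i - p * d.1 i - q * d'.1 i - (f e e' i - p * e.1 i - q * e'.1 i)| <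
        1 / (N.factorial : ℚ) := by
      rw [abs_lt]
      constructor <;> linarith [h1i.1, h1i.2, h2i.1, h2i.2]
    exact absurd (h4.trans_le hfac) (not_lt.mpr hN₀.le)

/-- The perfect set of pairs. -/
theorem perfect_pairs {f : Dsub → Dsub → Y} (hf : ContD f) (hna : ¬ AffineD f) :
    ∃ u v : (ℕ → Bool) → Y,
      (∀ z z', z ≠ z' → ∀ p q : ℚ, ∀ w w', Lim f (u z) (v z) w → Lim f (u z') (v z') w' →
        w - p • u z - q • v z ≠ w' - p • u z' - q • v z') ∧
      (∀ z z', z ≠ z' → ∀ p q : ℚ, (p ≠ 0 ∨ q ≠ 0) →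
        p • u z + q • v z ≠ p • u z' + q • v z') := by
  obtain ⟨pq, hpq⟩ := exists_surjective_nat (ℚ × ℚ)
  obtain ⟨F, hF1, hF2, hF3⟩ := fusion Cd.le
    (fun n s t => RA f (pq n).1 (pq n).2 s t ∧ RB (pq n).1 (pq n).2 s t)
    (fun k t => k + 1 ≤ t.n) Cd.le_refl Cd.le_trans
    (fun n s t s' t' hs ht h => ⟨RA_mono f _ _ hs ht h.1, RB_mono _ _ hs ht h.2⟩)
    (by
      intro n s t
      obtain ⟨s₁, t₁, hs₁, ht₁, h1⟩ := RA_dense hf hna (pq n).1 (pq n).2 s t
      obtain ⟨s₂, t₂, hs₂, ht₂, h2⟩ := RB_dense (pq n).1 (pq n).2 s₁ t₁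
      exact ⟨s₂, t₂, Cd.le_trans _ _ _ hs₂ hs₁, Cd.le_trans _ _ _ ht₂ ht₁,
        RA_mono f _ _ hs₂ ht₂ h1, h2⟩)
    (by
      intro k t
      exact ⟨⟨max t.n (k + 1), t.a, t.b⟩, ⟨le_max_left _ _, fun _ _ => ⟨rfl, rfl⟩⟩,
        le_max_right _ _⟩)
    (fun k t t' h1 h2 => le_trans h2 h1.1)
    ⟨0, 0, 0⟩
  have hmono : ∀ z k l, k ≤ l → Cd.le (F z l) (F z k) := by
    intro z k l hkl
    induction l, hkl using Nat.le_induction with
    | base => exact Cd.le_refl _
    | succ l _ ih => exact Cd.le_trans _ _ _ (hF1 z l) ih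
  let u : (ℕ → Bool) → Y := fun z i => (F z (i + 1)).a.1 i
  let v : (ℕ → Bool) → Y := fun z i => (F z (i + 1)).b.1 i
  have hbox : ∀ z k, (F z k).Box (u z) (v z) := by
    intro z k i hi
    rcases le_total k (i + 1) with h | h
    · exact (hmono z k (i + 1) h).2 i hi
    · have h1 := (hmono z (i + 1) k h).2 i (hF2 z i)
      exact ⟨h1.1.symm, h1.2.symm⟩
  refine ⟨u, v, ?_, ?_⟩
  · intro z z' hne p q w w' hw hw'
    obtain ⟨n, hn⟩ := hpq (p, q)
    obtain ⟨k, hk⟩ := hF3 z z' hne n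
    have h1 := hk.1 _ _ _ _ _ _ (hbox z k) (hbox z' k) hw hw'
    rw [hn] at h1
    exact h1
  · intro z z' hne p q hpq0
    obtain ⟨n, hn⟩ := hpq (p, q)
    obtain ⟨k, hk⟩ := hF3 z z' hne n
    have h2 := hk.2
    rw [hn] at h2
    exact h2 hpq0 _ _ _ _ (hbox z k) (hbox z' k)

end Pool.Agent.Lib.MP_f8fbfa
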