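import Pool.Agent.Lib.MP_f8fbfa.Diag

set_option autoImplicit false

namespace Pool.Agent.Lib.MP_f8fbfa

open Topology Filter

lemma single_mem (n : ℕ) (r : ℚ) : (Pi.single n r : Y) ∈ Dsub :=
  ⟨n + 1, fun i hi => by rw [Pi.single_eq_of_ne (by omega)]⟩

/-- Adding `r` to the `n`-th coordinate. -/
noncomputable def shift {X : Submodule ℚ Y} (hX : Dsub ≤ X) (w : SX X) (n : ℕ) (r : ℚ) : SX X :=
  w + SX.mk (Pi.single n r) (hX (single_mem n r))

lemma shift_val {X : Submodule ℚ Y} (hX : Dsub ≤ X) (w : SX X) (n : ℕ) (r : ℚ) :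
    (shift hX w n r).val = w.val + Pi.single n r := rfl

lemma shift_val_ne {X : Submodule ℚ Y} (hX : Dsub ≤ X) (w : SX X) {n i : ℕ} (r : ℚ)
    (h : i ≠ n) : (shift hX w n r).val i = w.val i := by
  rw [shift_val, Pi.add_apply, Pi.single_eq_of_ne h, add_zero]

lemma shift_val_self {X : Submodule ℚ Y} (hX : Dsub ≤ X) (w : SX X) (n : ℕ) (r : ℚ) :
    (shift hX w n r).val n = w.val n + r := by
  rw [shift_val, Pi.add_apply, Pi.single_eq_same]

lemma tendsto_shift {X : Submodule ℚ Y} (hX : Dsub ≤ X) (w : SX X) (n : ℕ) {c : ℚ}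
    (hc : 0 ≤ c) : Tendsto (fun k : ℕ => shift hX w n (c / (k + 1))) atTop (𝓝 w) := by
  rw [tendsto_iff_fl]
  intro N
  obtain ⟨M, hM, hint⟩ := exists_intAt_ge (w.val n) N
  obtain ⟨K, hK⟩ := exists_nat_gt (c * M.factorial)
  filter_upwards [eventually_ge_atTop K] with k hk
  funext i
  change ⌊(N.factorial : ℚ) * (shift hX w n (c / (k + 1))).val i⌋ =
    ⌊(N.factorial : ℚ) * w.val i⌋
  by_cases hin : (i : ℕ) = n
  · rw [hin]
    apply floor_mono hM
    rw [floor_eq_iff_of_intAt hint, shift_val_self]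
    have hk' : (K : ℚ) ≤ k := by exact_mod_cast hk
    have hk0 : (0 : ℚ) < (k : ℚ) + 1 := by positivity
    have h1 : 0 ≤ c / ((k : ℚ) + 1) := div_nonneg hc hk0.le
    have h2 : c / ((k : ℚ) + 1) < 1 / (M.factorial : ℚ) := by
      rw [div_lt_div_iff₀ hk0 (fac_pos M)]
      linarith
    constructor <;> linarith
  · rw [shift_val_ne hX w _ hin]

lemma not_tendsto_shift {X : Submodule ℚ Y} (hX : Dsub ≤ X) (w : SX X) (n : ℕ) {c : ℚ}
    (hc : c < 0) : ¬ Tendsto (fun k : ℕ => shift hX w n (c / (k + 1))) atTop (𝓝 w) := by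
  intro h
  rw [tendsto_iff_fl] at h
  obtain ⟨M, hM, hint⟩ := exists_intAt_ge (w.val n) (n + 1)
  obtain ⟨k, hk⟩ := (h M).exists
  have h1 : ⌊(M.factorial : ℚ) * (shift hX w n (c / (k + 1))).val n⌋ =
    ⌊(M.factorial : ℚ) * w.val n⌋ := congrFun hk ⟨n, by omega⟩
  rw [floor_eq_iff_of_intAt hint, shift_val_self] at h1
  have hk0 : (0 : ℚ) < (k : ℚ) + 1 := by positivity
  have h2 : c / ((k : ℚ) + 1) < 0 := div_neg_of_neg_of_pos hc hk0
  linarith [h1.1]

theorem not_homeomorph {X : Submodule ℚ Y} (hX : Dsub ≤ X)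
    (hprop : ∀ f : Dsub → Dsub → Y, ContD f → ¬ AffineD f →
      ∃ x ∈ X, ∃ y ∈ X, ∀ w ∈ X, ¬ Lim f x y w)
    (H : Type) [Group H] [TopologicalSpace H] [IsTopologicalGroup H] (h : SX X ≃ₜ H) :
    False := by
  let m : SX X → SX X → SX X := fun x y => h.symm (h x * h y)
  have hm : ∀ x y, h (m x y) = h x * h y := fun x y => h.apply_symm_apply _
  have hmc : Continuous (fun p : SX X × SX X => m p.1 p.2) := by
    apply h.symm.continuous.comp
    exact (h.continuous.comp continuous_fst).mul (h.continuous.comp continuous_snd)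
  let em : Dsub → SX X := fun d => SX.mk d.1 (hX d.2)
  let f : Dsub → Dsub → Y := fun d d' => (m (em d) (em d')).val
  have hlim : ∀ x y : SX X, Lim f x.val y.val (m x y).val := by
    intro x y n
    have h1 := hmc.continuousAt (x := (x, y)) (mem_nhds_fl (m x y) n)
    rw [nhds_prod_eq] at h1
    obtain ⟨⟨k₁, k₂⟩, -, hk⟩ := ((nhds_hasBasis x).prod (nhds_hasBasis y)).mem_iff.mp h1
    refine ⟨max k₁ k₂, fun d d' hd hd' => ?_⟩
    have h2 : ((em d, em d') : SX X × SX X) ∈
        {y | fl k₁ y.val = fl k₁ x.val} ×ˢ {z : SX X | fl k₂ z.val = fl k₂ y.val} :=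
      ⟨fl_mono (le_max_left _ _) hd, fl_mono (le_max_right _ _) hd'⟩
    exact hk h2
  have hcont : ContD f := fun d d' => hlim (em d) (em d')
  have haff : AffineD f := by
    by_contra hna
    obtain ⟨x, hx, y, hy, hxy⟩ := hprop f hcont hna
    exact hxy _ (m (SX.mk x hx) (SX.mk y hy)).val_mem (hlim (SX.mk x hx) (SX.mk y hy))
  obtain ⟨n, a, b, p, q, c, hf⟩ := haff
  -- the formula on the whole box
  have hform : ∀ x y : SX X, (∀ i < n, x.val i = a.1 i) → (∀ i < n, y.val i = b.1 i) →
      (m x y).val = p • x.val + q • y.val + c := by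
    intro x y hx hy
    apply fl_injective
    intro N
    obtain ⟨k, hk⟩ := hlim x y N
    set K := max k (max n N) with hK
    have h1 := hk (trunc K x.val) (trunc K y.val) (trunc_fl (by omega) _)
      (trunc_fl (by omega) _)
    rw [← h1, hf]
    · apply fl_congr
      intro i hi
      have hiK : i < K := by omega
      simp only [Pi.add_apply, Pi.smul_apply, trunc_apply hiK]
    · intro i hi
      rw [trunc_apply (by omega)]
      exact hx i hi
    · intro i hi
      rw [trunc_apply (by omega)]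
      exact hy i hi
  set x₀ := em a with hx₀
  set y₀ := em b with hy₀
  have hbx : ∀ r, ∀ i < n, (shift hX x₀ n r).val i = a.1 i := by
    intro r i hi
    rw [shift_val_ne hX _ _ (by omega)]
    rfl
  have hby : ∀ r, ∀ i < n, (shift hX y₀ n r).val i = b.1 i := by
    intro r i hi
    rw [shift_val_ne hX _ _ (by omega)]
    rfl
  have hx0 : ∀ i < n, x₀.val i = a.1 i := fun i _ => rfl
  have hy0 : ∀ i < n, y₀.val i = b.1 i := fun i _ => rfl
  set z₀ := m x₀ y₀ with hz₀
  have hz : z₀.val = p • x₀.val + q • y₀.val + c := hform x₀ y₀ hx0 hy0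
  -- values of the product on shifted points
  have hsm : ∀ (r s : ℚ), (Pi.single n (r * s) : Y) = r • (Pi.single n s : Y) := by
    intro r s
    rw [← Pi.single_smul, smul_eq_mul]
  have hmx : ∀ r, m (shift hX x₀ n r) y₀ = shift hX z₀ n (p * r) := by
    intro r
    apply SX.ext
    rw [hform _ _ (hbx r) hy0, shift_val, shift_val, hz, hsm, smul_add]
    abel
  have hmy : ∀ r, m x₀ (shift hX y₀ n r) = shift hX z₀ n (q * r) := by
    intro r
    apply SX.ext
    rw [hform _ _ hx0 (hby r), shift_val, shift_val, hz, hsm, smul_add]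
    abel
  have hmxy : ∀ r s, p * r + q * s = 0 → m (shift hX x₀ n r) (shift hX y₀ n s) = z₀ := by
    intro r s hrs
    apply SX.ext
    rw [hform _ _ (hbx r) (hby s), shift_val, shift_val, hz, smul_add, smul_add, ← hsm, ← hsm]
    have h1 : (Pi.single n (p * r) : Y) + Pi.single n (q * s) = 0 := by
      rw [← Pi.single_add, hrs, Pi.single_zero]
    have h2 : (Pi.single n (p * r) : Y) = - Pi.single n (q * s) := eq_neg_of_add_eq_zero_left h1
    rw [h2]
    abel
  have hshift0 : ∀ w : SX X, shift hX w n 0 = w := by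
    intro w
    apply SX.ext
    rw [shift_val, Pi.single_zero, add_zero]
  have hshift_inj : ∀ (w : SX X) (r : ℚ), shift hX w n r = w → r = 0 := by
    intro w r hr
    have h1 := shift_val_self hX w n r
    rw [hr] at h1
    linarith
  have hp0 : p ≠ 0 := by
    intro hp
    have h1 := hmx 1
    rw [hp, zero_mul, hshift0] at h1
    have h2 := congrArg h h1
    rw [hm, hm] at h2
    have h3 := h.injective (mul_right_cancel h2)
    exact one_ne_zero (hshift_inj _ _ h3)
  have hq0 : q ≠ 0 := by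
    intro hq
    have h1 := hmy 1
    rw [hq, zero_mul, hshift0] at h1
    have h2 := congrArg h h1
    rw [hm, hm] at h2
    have h3 := h.injective (mul_left_cancel h2)
    exact one_ne_zero (hshift_inj _ _ h3)
  have hppos : 0 < p := by
    rcases lt_or_gt_of_ne hp0 with hlt | hgt
    · exfalso
      apply not_tendsto_shift hX z₀ n hlt
      have h1 : Tendsto (fun k : ℕ => m (shift hX x₀ n (1 / ((k : ℚ) + 1))) y₀) atTop (𝓝 z₀) := by
        have h2 : Continuous (fun x : SX X => m x y₀) :=
          hmc.comp (continuous_id.prodMk continuous_const)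
        exact (h2.tendsto x₀).comp (tendsto_shift hX x₀ n zero_le_one)
      refine h1.congr fun k => ?_
      rw [hmx, mul_one_div]
    · exact hgt
  have hqpos : 0 < q := by
    rcases lt_or_gt_of_ne hq0 with hlt | hgt
    · exfalso
      apply not_tendsto_shift hX z₀ n hlt
      have h1 : Tendsto (fun k : ℕ => m x₀ (shift hX y₀ n (1 / ((k : ℚ) + 1)))) atTop (𝓝 z₀) := by
        have h2 : Continuous (fun y : SX X => m x₀ y) :=
          hmc.comp (continuous_const.prodMk continuous_id)
        exact (h2.tendsto y₀).comp (tendsto_shift hX y₀ n zero_le_one)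
      refine h1.congr fun k => ?_
      rw [hmy, mul_one_div]
    · exact hgt
  -- the final contradiction: continuity of the inverse
  have hneg : -(p / q) < 0 := by
    have := div_pos hppos hqpos
    linarith
  apply not_tendsto_shift hX y₀ n hneg
  have h1 : Tendsto (fun k : ℕ => h.symm ((h (shift hX x₀ n (1 / ((k : ℚ) + 1))))⁻¹ * h z₀))
      atTop (𝓝 (h.symm ((h x₀)⁻¹ * h z₀))) := by
    have h2 : Continuous (fun x : SX X => h.symm ((h x)⁻¹ * h z₀)) :=
      h.symm.continuous.comp ((h.continuous.inv).mul continuous_const)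
    exact (h2.tendsto x₀).comp (tendsto_shift hX x₀ n zero_le_one)
  have h2 : h.symm ((h x₀)⁻¹ * h z₀) = y₀ := by
    rw [hz₀, hm, inv_mul_cancel_left, h.symm_apply_apply]
  rw [h2] at h1
  refine h1.congr fun k => ?_
  have h3 := hmxy (1 / ((k : ℚ) + 1)) (-(p / q) / ((k : ℚ) + 1)) (by
    have hk0 : (k : ℚ) + 1 ≠ 0 := by positivity
    field_simp
    ring)
  rw [← h3, hm, inv_mul_cancel_left, h.symm_apply_apply]

end Pool.Agent.Lib.MP_f8fbfa
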