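import Pool.Agent.Lib.MP_f8fbfa.Floor

set_option autoImplicit false

namespace Pool.Agent.Lib.MP_f8fbfa

open Topology

section General

variable {X C : Type*} (c : X → ℕ → C)

/-- `n` is the first place at which the digit sequences of `x` and `y` differ. -/
def FD (x y : X) (n : ℕ) : Prop := (∀ j < n, c x j = c y j) ∧ c x n ≠ c y n

lemma FD.unique {x y : X} {n m : ℕ} (hn : FD c x y n) (hm : FD c x y m) : n = m := by
  rcases lt_trichotomy n m with h | h | h
  · exact absurd (hm.1 n h) hn.2
  · exact h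
  · exact absurd (hn.1 m h) hm.2

lemma exists_FD (hc : Function.Injective c) {x y : X} (h : x ≠ y) : ∃ n, FD c x y n := by
  classical
  have h1 : ∃ n, c x n ≠ c y n := by
    by_contra h2
    push Not at h2
    exact h (hc (funext h2))
  refine ⟨Nat.find h1, fun j hj => ?_, Nat.find_spec h1⟩
  have := Nat.find_min h1 hj
  simpa using this

variable (sp : ℕ → X → X → X)

open Classical in
/-- The ternary operation `Φ x e y`. -/
noncomputable def Phi (x e y : X) : X :=
  if h : ∃ n, FD c x y n then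
    (if c y h.choose = c e h.choose then sp (h.choose + 1) (sp h.choose e x) y
      else sp h.choose e y)
  else e

variable {c sp}

lemma Phi_self (x e : X) : Phi c sp x e x = e := by
  have : ¬ ∃ n, FD c x x n := by
    rintro ⟨n, hn⟩
    exact hn.2 rfl
  simp [Phi, this]

lemma Phi_spec (hsp1 : ∀ n x y j, j < n → c (sp n x y) j = c x j)
    (hsp2 : ∀ n x y j, n ≤ j → c (sp n x y) j = c y j) {x y : X} (e : X) {n : ℕ}
    (h : FD c x y n) :
    (∀ j < n, c (Phi c sp x e y) j = c e j) ∧
      (c y n = c e n → c (Phi c sp x e y) n = c x n) ∧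
      (c y n ≠ c e n → c (Phi c sp x e y) n = c y n) ∧
      (∀ j, n < j → c (Phi c sp x e y) j = c y j) := by
  have hex : ∃ n, FD c x y n := ⟨n, h⟩
  have hn : hex.choose = n := FD.unique c hex.choose_spec h
  have hP : Phi c sp x e y = @ite _ (c y n = c e n) (Classical.propDecidable _)
      (sp (n + 1) (sp n e x) y) (sp n e y) := by
    rw [Phi, dif_pos hex, hn]
  by_cases hy : c y n = c e n
  · rw [hP, if_pos hy]
    refine ⟨fun j hj => ?_, fun _ => ?_, fun h => absurd hy h, fun j hj => ?_⟩
    · rw [hsp1 _ _ _ _ (by omega), hsp1 _ _ _ _ hj]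
    · rw [hsp1 _ _ _ _ (by omega), hsp2 _ _ _ _ le_rfl]
    · rw [hsp2 _ _ _ _ (by omega)]
  · rw [hP, if_neg hy]
    refine ⟨fun j hj => ?_, fun h => absurd h hy, fun _ => ?_, fun j hj => ?_⟩
    · rw [hsp1 _ _ _ _ hj]
    · rw [hsp2 _ _ _ _ le_rfl]
    · rw [hsp2 _ _ _ _ (by omega)]

lemma Phi_inv (hc : Function.Injective c)
    (hsp1 : ∀ n x y j, j < n → c (sp n x y) j = c x j)
    (hsp2 : ∀ n x y j, n ≤ j → c (sp n x y) j = c y j) (x e y : X) :
    Phi c sp e x (Phi c sp x e y) = y := by
  by_cases hxy : x = y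
  · subst hxy
    rw [Phi_self, Phi_self]
  · obtain ⟨n, hn⟩ := exists_FD c hc hxy
    obtain ⟨h1, h2, h3, h4⟩ := Phi_spec (sp := sp) hsp1 hsp2 e hn
    set w := Phi c sp x e y with hw
    have hfd : FD c e w n := by
      refine ⟨fun j hj => (h1 j hj).symm, ?_⟩
      by_cases hy : c y n = c e n
      · rw [h2 hy, ← hy]
        exact hn.2.symm
      · rw [h3 hy]
        exact fun h => hy h.symm
    obtain ⟨k1, k2, k3, k4⟩ := Phi_spec (sp := sp) hsp1 hsp2 x hfd
    apply hc
    funext j
    rcases lt_trichotomy j n with hj | hj | hj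
    · rw [k1 j hj]
      exact hn.1 j hj
    · subst hj
      by_cases hy : c y j = c e j
      · rw [k2 (h2 hy), hy]
      · have h5 : c w j ≠ c x j := by
          rw [h3 hy]
          exact hn.2.symm
        rw [k3 h5, h3 hy]
    · rw [k4 j hj, h4 j hj]

variable [TopologicalSpace X] [TopologicalSpace C] [DiscreteTopology C]

lemma eventually_eq_digits (hc : Continuous c) {Z : Type*} [TopologicalSpace Z] {g : Z → X}
    (hg : Continuous g) (z : Z) (N : ℕ) : ∀ᶠ z' in 𝓝 z, ∀ k ≤ N, c (g z') k = c (g z) k := by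
  have h1 : ∀ k, ∀ᶠ z' in 𝓝 z, c (g z') k = c (g z) k := by
    intro k
    have h2 : Continuous (fun z' => c (g z') k) := (continuous_apply k).comp (hc.comp hg)
    have h3 : {c (g z) k} ∈ 𝓝 (c (g z) k) := by
      rw [nhds_discrete C]
      exact Set.mem_singleton _
    exact h2.continuousAt h3
  have h4 := (Filter.eventually_all_finite (l := 𝓝 z) (Set.finite_Iic N)
    (p := fun k z' => c (g z') k = c (g z) k)).mpr (fun k _ => h1 k)
  exact h4

lemma Phi_continuous (hc : IsEmbedding c)
    (hsp1 : ∀ n x y j, j < n → c (sp n x y) j = c x j)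
    (hsp2 : ∀ n x y j, n ≤ j → c (sp n x y) j = c y j)
    {Z : Type*} [TopologicalSpace Z] {g₁ g₂ g₃ : Z → X}
    (hg₁ : Continuous g₁) (hg₂ : Continuous g₂) (hg₃ : Continuous g₃) :
    Continuous (fun z => Phi c sp (g₁ z) (g₂ z) (g₃ z)) := by
  rw [hc.isInducing.continuous_iff, continuous_pi_iff]
  intro j
  rw [continuous_iff_continuousAt]
  intro z
  rw [ContinuousAt, nhds_discrete C, Filter.tendsto_pure]
  by_cases hxy : g₁ z = g₃ z
  · filter_upwards [eventually_eq_digits hc.continuous hg₁ z j,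
      eventually_eq_digits hc.continuous hg₂ z j,
      eventually_eq_digits hc.continuous hg₃ z j] with z' h1 h2 h3
    simp only [Function.comp_apply]
    have e1 : c (Phi c sp (g₁ z) (g₂ z) (g₃ z)) j = c (g₂ z) j := by
      rw [← hxy, Phi_self]
    rw [e1]
    by_cases hxy' : g₁ z' = g₃ z'
    · rw [← hxy', Phi_self]
      exact h2 j le_rfl
    · obtain ⟨n, hn⟩ := exists_FD c hc.injective hxy'
      have hjn : j < n := by
        by_contra hlt
        push Not at hlt
        apply hn.2
        rw [h1 n hlt, h3 n hlt, hxy]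
      rw [(Phi_spec hsp1 hsp2 (g₂ z') hn).1 j hjn]
      exact h2 j le_rfl
  · obtain ⟨n, hn⟩ := exists_FD c hc.injective hxy
    filter_upwards [eventually_eq_digits hc.continuous hg₁ z (max n j),
      eventually_eq_digits hc.continuous hg₂ z (max n j),
      eventually_eq_digits hc.continuous hg₃ z (max n j)] with z' h1 h2 h3
    simp only [Function.comp_apply]
    have hn' : FD c (g₁ z') (g₃ z') n := by
      refine ⟨fun k hk => ?_, ?_⟩
      · rw [h1 k (by omega), h3 k (by omega)]
        exact hn.1 k hk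
      · rw [h1 n (by omega), h3 n (by omega)]
        exact hn.2
    obtain ⟨a1, a2, a3, a4⟩ := Phi_spec (sp := sp) hsp1 hsp2 (g₂ z) hn
    obtain ⟨b1, b2, b3, b4⟩ := Phi_spec (sp := sp) hsp1 hsp2 (g₂ z') hn'
    rcases lt_trichotomy j n with hj | hj | hj
    · rw [a1 j hj, b1 j hj]
      exact h2 j (by omega)
    · subst hj
      have h3j := h3 j (by omega)
      have h2j := h2 j (by omega)
      by_cases hy : c (g₃ z) j = c (g₂ z) j
      · rw [a2 hy, b2 (by rw [h3j, h2j]; exact hy)]
        exact h1 j (by omega)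
      · rw [a3 hy, b3 (by rw [h3j, h2j]; exact hy)]
        exact h3j
    · rw [a4 j hj, b4 j hj]
      exact h3 j (by omega)

/-- A space embedded in a countable product of discrete spaces and closed under splicing of
digit sequences is rectifiable. -/
theorem rectifiable_of_splice (hc : IsEmbedding c)
    (hsp1 : ∀ n x y j, j < n → c (sp n x y) j = c x j)
    (hsp2 : ∀ n x y j, n ≤ j → c (sp n x y) j = c y j) (e : X) :
    ∃ φ : (X × X) ≃ₜ (X × X), (∀ p : X × X, (φ p).1 = p.1) ∧ ∀ x : X, φ (x, x) = (x, e) := by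
  refine ⟨⟨⟨fun p => (p.1, Phi c sp p.1 e p.2), fun p => (p.1, Phi c sp e p.1 p.2), ?_, ?_⟩,
    ?_, ?_⟩, ?_, ?_⟩
  · rintro ⟨x, y⟩
    simp only
    rw [Phi_inv hc.injective hsp1 hsp2]
  · rintro ⟨x, y⟩
    simp only
    rw [Phi_inv hc.injective hsp1 hsp2]
  · exact continuous_fst.prodMk
      (Phi_continuous hc hsp1 hsp2 continuous_fst continuous_const continuous_snd)
  · exact continuous_fst.prodMk
      (Phi_continuous hc hsp1 hsp2 continuous_const continuous_fst continuous_snd)
  · intro p
    rfl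
  · intro x
    change (x, Phi c sp x e x) = (x, e)
    rw [Phi_self]

end General

/-! ### The digit sequences of elements of `SX X` -/

/-- Rounding down the first `n` coordinates to multiples of `1 / n!`, dropping the others. -/
def rd (n : ℕ) (x : Y) : Y := fun i => if i < n then (⌊(n.factorial : ℚ) * x i⌋ : ℚ) / n.factorial
  else 0

lemma rd_congr {n : ℕ} {x y : Y} (h : fl n x = fl n y) : rd n x = rd n y := by
  funext i
  by_cases hi : i < n
  · have h1 : ⌊(n.factorial : ℚ) * x i⌋ = ⌊(n.factorial : ℚ) * y i⌋ := congrFun h ⟨i, hi⟩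
    simp only [rd, if_pos hi, h1]
  · simp only [rd, if_neg hi]

lemma fl_of_rd {n : ℕ} {x y : Y} (h : rd n x = rd n y) : fl n x = fl n y := by
  funext i
  have h1 := congrFun h i.1
  simp only [rd, if_pos i.2] at h1
  rw [div_left_inj' (fac_ne n)] at h1
  exact_mod_cast h1

lemma rd_zero (x : Y) : rd 0 x = 0 := by
  funext i
  simp [rd]

lemma rd_eq_zero_of_le {n i : ℕ} (h : n ≤ i) (x : Y) : rd n x i = 0 := by
  simp only [rd, if_neg (not_lt.mpr h)]

lemma rd_intAt (n : ℕ) (x : Y) (i : ℕ) : IntAt n (rd n x i) := by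
  by_cases hi : i < n
  · refine ⟨⌊(n.factorial : ℚ) * x i⌋, ?_⟩
    simp only [rd, if_pos hi]
    field_simp [fac_ne n]
  · refine ⟨0, ?_⟩
    simp [rd, if_neg hi]

/-- Translation property of the rounding. -/
lemma rd_add_of_intAt {k : ℕ} {x d : Y} (hd : ∀ i, IntAt k (d i)) (hd' : ∀ i, k ≤ i → d i = 0) :
    rd k (x + d) = rd k x + d := by
  funext i
  by_cases hi : i < k
  · obtain ⟨K, hK⟩ := hd i
    simp only [rd, if_pos hi, Pi.add_apply, mul_add, hK, Int.floor_add_intCast]
    push_cast
    rw [add_div, ← hK]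
    field_simp [fac_ne k]
  · simp only [rd, if_neg hi, Pi.add_apply, hd' i (not_lt.mp hi), add_zero]

lemma floor_sub_rd {n : ℕ} (x : Y) {i : ℕ} (hi : i < n) :
    0 ≤ x i - rd n x i ∧ x i - rd n x i < 1 / (n.factorial : ℚ) := by
  have hp := fac_pos n
  simp only [rd, if_pos hi]
  have h1 := Int.floor_le ((n.factorial : ℚ) * x i)
  have h2 := Int.lt_floor_add_one ((n.factorial : ℚ) * x i)
  constructor
  · rw [sub_nonneg, div_le_iff₀ hp]
    linarith
  · rw [sub_lt_iff_lt_add, ← add_div, lt_div_iff₀ hp]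
    linarith

/-- The spliced sequence: the rounding of `v` at level `n`, and the tail of `y`. -/
def spY (n : ℕ) (v y : Y) : Y := y - rd n y + rd n v

lemma rd_spY_of_le {k n : ℕ} (h : k ≤ n) (v y : Y) : rd k (spY n v y) = rd k v := by
  apply rd_congr
  apply fl_mono h
  funext i
  change ⌊(n.factorial : ℚ) * spY n v y i⌋ = ⌊(n.factorial : ℚ) * v i⌋
  have h1 : ⌊(n.factorial : ℚ) * spY n v y i⌋ = ⌊(n.factorial : ℚ) * rd n v i⌋ := by
    rw [floor_eq_iff_of_intAt (rd_intAt n v i)]
    have h2 := floor_sub_rd y i.2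
    simp only [spY, Pi.add_apply, Pi.sub_apply]
    constructor <;> linarith [h2.1, h2.2]
  have h3 : ⌊(n.factorial : ℚ) * v i⌋ = ⌊(n.factorial : ℚ) * rd n v i⌋ := by
    rw [floor_eq_iff_of_intAt (rd_intAt n v i)]
    have h2 := floor_sub_rd v i.2
    constructor <;> linarith [h2.1, h2.2]
  rw [h1, h3]

lemma rd_spY_of_ge {k n : ℕ} (h : n ≤ k) (v y : Y) :
    rd k (spY n v y) = rd k y - rd n y + rd n v := by
  have h1 : spY n v y = y + (rd n v - rd n y) := by
    simp only [spY]
    abel
  rw [h1, rd_add_of_intAt]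
  · abel
  · intro i
    obtain ⟨K, hK⟩ := (rd_intAt n v i).mono h
    obtain ⟨L, hL⟩ := (rd_intAt n y i).mono h
    refine ⟨K - L, ?_⟩
    rw [Pi.sub_apply, mul_sub, hK, hL]
    push_cast
    ring
  · intro i hi
    rw [Pi.sub_apply, rd_eq_zero_of_le (h.trans hi), rd_eq_zero_of_le (h.trans hi), sub_zero]

/-- The finitely supported sequences. -/
def Dsub : Submodule ℚ Y where
  carrier := {x | ∃ n, ∀ i, n ≤ i → x i = 0}
  add_mem' := by
    rintro x y ⟨n, hn⟩ ⟨m, hm⟩
    refine ⟨max n m, fun i hi => ?_⟩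
    rw [Pi.add_apply, hn i ((le_max_left _ _).trans hi), hm i ((le_max_right _ _).trans hi),
      add_zero]
  zero_mem' := ⟨0, fun i _ => rfl⟩
  smul_mem' := by
    rintro c x ⟨n, hn⟩
    refine ⟨n, fun i hi => ?_⟩
    rw [Pi.smul_apply, hn i hi, smul_zero]

lemma rd_mem (n : ℕ) (x : Y) : rd n x ∈ Dsub := ⟨n, fun _ hi => rd_eq_zero_of_le hi x⟩

variable {X : Submodule ℚ Y}

/-- Discrete copy of the sequence space. -/
def DY : Type := Y

instance : TopologicalSpace DY := ⊥

instance : DiscreteTopology DY := ⟨rfl⟩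

/-- Digits. -/
def dig (x : SX X) : ℕ → DY := fun n => (rd (n + 1) x.val - rd n x.val : Y)

lemma dig_apply (x : SX X) (n : ℕ) : dig x n = (rd (n + 1) x.val - rd n x.val : Y) := rfl

lemma fl_eq_iff_dig (x y : SX X) (n : ℕ) :
    fl n x.val = fl n y.val ↔ ∀ j < n, dig x j = dig y j := by
  constructor
  · intro h j hj
    have h1 := rd_congr (fl_mono (m := j + 1) (by omega) h)
    have h2 := rd_congr (fl_mono (m := j) (by omega) h)
    change rd (j + 1) x.val - rd j x.val = rd (j + 1) y.val - rd j y.val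
    rw [h1, h2]
  · intro h
    apply fl_of_rd
    induction n with
    | zero => rw [rd_zero, rd_zero]
    | succ n ih =>
      have h1 := ih (fun j hj => h j (by omega))
      have h2 : (rd (n + 1) x.val - rd n x.val : Y) = rd (n + 1) y.val - rd n y.val :=
        h n (Nat.lt_succ_self n)
      rw [h1] at h2
      exact sub_left_injective h2

lemma isEmbedding_dig : IsEmbedding (dig (X := X)) := by
  refine ⟨?_, ?_⟩
  · rw [isInducing_iff_nhds]
    intro x
    apply (nhds_hasBasis x).eq_of_same_basis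
    have h1 : 𝓝 (dig x) = ⨅ n : ℕ, Filter.principal {y : ℕ → DY | ∀ j < n, y j = dig x j} := by
      rw [nhds_pi, Filter.pi]
      simp only [nhds_discrete, Filter.comap_pure]
      apply le_antisymm
      · refine le_iInf fun n => ?_
        rw [Filter.le_principal_iff]
        have : {y : ℕ → DY | ∀ j < n, y j = dig x j} =
            ⋂ j ∈ Set.Iio n, (Function.eval j) ⁻¹' {dig x j} := by
          ext y
          simp
        rw [this, Filter.biInter_mem (Set.finite_Iio n)]
        intro j _
        exact Filter.mem_iInf_of_mem j (Filter.mem_principal_self _)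
      · refine le_iInf fun j => ?_
        apply iInf_le_of_le (j + 1)
        rw [Filter.le_principal_iff, Filter.mem_principal]
        intro y hy
        exact hy j (Nat.lt_succ_self j)
    rw [h1, Filter.comap_iInf]
    simp only [Filter.comap_principal]
    have h2 : (fun n : ℕ => {y : SX X | fl n y.val = fl n x.val}) =
        fun n : ℕ => dig ⁻¹' {y : ℕ → DY | ∀ j < n, y j = dig x j} := by
      funext n
      ext y
      exact fl_eq_iff_dig y x n
    rw [h2]
    apply Filter.hasBasis_iInf_principal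
    intro m n
    refine ⟨max m n, ?_, ?_⟩
    · intro y hy j hj
      exact hy j (lt_of_lt_of_le hj (le_max_left m n))
    · intro y hy j hj
      exact hy j (lt_of_lt_of_le hj (le_max_right m n))
  · intro x y h
    apply SX.ext
    apply fl_injective
    intro n
    rw [fl_eq_iff_dig]
    intro j _
    rw [h]

lemma spY_mem (hX : Dsub ≤ X) (n : ℕ) (v y : SX X) : spY n v.val y.val ∈ X :=
  X.add_mem (X.sub_mem y.val_mem (hX (rd_mem _ _))) (hX (rd_mem _ _))

/-- Splicing inside `SX X`. -/
def spX (hX : Dsub ≤ X) (n : ℕ) (v y : SX X) : SX X :=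
  SX.mk (spY n v.val y.val) (spY_mem hX n v y)

lemma dig_spX_lt (hX : Dsub ≤ X) (n : ℕ) (v y : SX X) (j : ℕ) (h : j < n) :
    dig (spX hX n v y) j = dig v j := by
  change rd (j + 1) (spY n v.val y.val) - rd j (spY n v.val y.val) =
    rd (j + 1) v.val - rd j v.val
  rw [rd_spY_of_le (by omega), rd_spY_of_le (by omega)]

lemma dig_spX_ge (hX : Dsub ≤ X) (n : ℕ) (v y : SX X) (j : ℕ) (h : n ≤ j) :
    dig (spX hX n v y) j = dig y j := by
  change rd (j + 1) (spY n v.val y.val) - rd j (spY n v.val y.val) =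
    rd (j + 1) y.val - rd j y.val
  rw [rd_spY_of_ge (by omega), rd_spY_of_ge (by omega)]
  abel

/-- `SX X` is rectifiable as soon as `X` contains all finitely supported sequences. -/
theorem rectifiable_SX (hX : Dsub ≤ X) (e : SX X) :
    ∃ φ : (SX X × SX X) ≃ₜ (SX X × SX X),
      (∀ p : SX X × SX X, (φ p).1 = p.1) ∧ ∀ x : SX X, φ (x, x) = (x, e) :=
  rectifiable_of_splice (c := dig) (sp := spX hX) isEmbedding_dig
    (fun n x y j h => dig_spX_lt hX n x y j h) (fun n x y j h => dig_spX_ge hX n x y j h) e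

end Pool.Agent.Lib.MP_f8fbfa
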